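import Pool.Agent.Lib.MP_92974c_pr.LocD

open MeasureTheory ProbabilityTheory EuclideanGeometry

namespace Pool.Agent.Results.MP_92974c_pr.DiscNotLocalMax

/-- `F S φ` is the probability that the largest angle of the triangle `X Y Z` is at most `φ`,
where `X, Y, Z` are independent and uniform on `S` (Lebesgue measure conditioned on `S`). -/
noncomputable def F {n : ℕ} (S : Set (EuclideanSpace ℝ (Fin n))) (φ : ℝ) : ENNReal :=
  (volume[|S]).prod ((volume[|S]).prod (volume[|S]))
    {p | max (∠ p.1 p.2.1 p.2.2) (max (∠ p.2.1 p.2.2 p.1) (∠ p.2.2 p.1 p.2.1)) ≤ φ}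

/-- For every angle between 60 and 65 degrees the disc is not a local maximum of `S ↦ F S φ`:
convex sets arbitrarily close to it in the Hausdorff distance have a larger value. -/
theorem result (φ : ℝ) (h₁ : Real.pi / 3 < φ) (h₂ : φ ≤ 13 * Real.pi / 36) (ε : ℝ) (hε : 0 < ε) :
    ∃ S : Set (EuclideanSpace ℝ (Fin 2)), MeasurableSet S ∧ Bornology.IsBounded S ∧ Convex ℝ S ∧
      (interior S).Nonempty ∧ Metric.hausdorffDist S (Metric.closedBall 0 1) < ε ∧
      F (Metric.closedBall (0 : EuclideanSpace ℝ (Fin 2)) 1) φ < F S φ :=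
  Lib.MP_92974c_pr.Loc.main_haus h₁ h₂ hε

end Pool.Agent.Results.MP_92974c_pr.DiscNotLocalMax
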