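import Pool.Agent.Lib.MP_92974c_pr.Transfer

open MeasureTheory ProbabilityTheory EuclideanGeometry

namespace Pool.Agent.Results.MP_92974c_pr.SquareBeatsDisc

/-- `F S φ` is the probability that the largest angle of the triangle `X Y Z` is at most `φ`,
where `X, Y, Z` are independent and uniform on `S` (Lebesgue measure conditioned on `S`). -/
noncomputable def F {n : ℕ} (S : Set (EuclideanSpace ℝ (Fin n))) (φ : ℝ) : ENNReal :=
  (volume[|S]).prod ((volume[|S]).prod (volume[|S]))
    {p | max (∠ p.1 p.2.1 p.2.2) (max (∠ p.2.1 p.2.2 p.1) (∠ p.2.2 p.1 p.2.1)) ≤ φ}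

/-- The unit square in the Euclidean plane. -/
def unitSquare : Set (EuclideanSpace ℝ (Fin 2)) := {x | ∀ i, 0 ≤ x i ∧ x i ≤ 1}

/-- The strong form of Hall's conjecture fails in dimension 2: the unit square is a bounded convex
set with nonempty interior that beats the disc for all angles slightly larger than `π / 3`. -/
theorem result :
    Bornology.IsBounded unitSquare ∧ Convex ℝ unitSquare ∧ (interior unitSquare).Nonempty ∧
      ∃ φ₀ : ℝ, Real.pi / 3 < φ₀ ∧ ∀ φ : ℝ, Real.pi / 3 < φ → φ < φ₀ →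
        F (Metric.ball (0 : EuclideanSpace ℝ (Fin 2)) 1) φ < F unitSquare φ :=
  ⟨Lib.MP_92974c_pr.sq_bounded, Lib.MP_92974c_pr.sq_convex, Lib.MP_92974c_pr.sq_interior,
    Lib.MP_92974c_pr.φ₀, Lib.MP_92974c_pr.φ₀_gt, fun _ h1 h2 => Lib.MP_92974c_pr.main_plane h1 h2⟩

end Pool.Agent.Results.MP_92974c_pr.SquareBeatsDisc
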